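import Pool.Agent.Y826.KL.Expl
import Pool.Agent.Helper703.KL.Exist1
import Pool.Agent.Helper703.KL.Exist2

set_option autoImplicit false

/-!
# Distinguished involutions and shortest elements of left cells: all but finitely many types fail

The question is whether for every affine Weyl group (i) `λ(x⁻¹, x)` is a distinguished involution for
every shortest element `x` of a left cell and (ii) `d = λ(x⁻¹, x)` for every distinguished involution
`d` and every shortest element `x` of the left cell of `d`.

The answer is negative for all irreducible affine Weyl groups except finitely many: for the types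
`A~_n` with `n ≥ 9` and `B~_n`, `C~_n`, `D~_n` with `n ≥ 10`; more generally for every Coxeter system
whose graph contains a full subgraph of type `A_9`.  No set `D` whatsoever can take the place of the
set of distinguished involutions.
-/

namespace Pool.Agent.Results.MP_8cdcda_al.AlmostAllTypes

open Module Pool.Agent.Helper703.KL Pool.Agent.Y826.KL

/-- The assertion fails in the strongest form for all Coxeter systems with the Coxeter matrix `M`, and
all models of their Iwahori-Hecke algebras (with standard basis `T`, bar involution `bar` and
Kazhdan-Lusztig basis `C`): there are shortest elements `x`, `x'` of left cells such that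
`w = λ(x⁻¹, x)` lies in the left cell of `x'` but `λ(x'⁻¹, x')` is not `≤ w` in the Bruhat order, in
particular it is not `w`; and so no subset `D` of the group satisfies both (i) and (ii). -/
def Fails {B : Type} (M : CoxeterMatrix B) : Prop :=
  ∀ (W : Type) [Group W] (cs : CoxeterSystem M W) (H : Type) [Ring H] [Algebra A H]
    (T : Basis W A H) (bar : H →+* H) (C : Basis W A H),
    IsHecke cs T → IsBar cs T bar → IsKLBasis cs T bar C →
    (∃ x x' w w' : W, Shortest cs T C x ∧ Shortest cs T C x' ∧ IsLambda cs T x⁻¹ x w ∧
      IsLambda cs T x'⁻¹ x' w' ∧ LEq cs T C x' w ∧ ¬ BLe cs w' w ∧ w ≠ w') ∧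
    ∀ D : Set W, ¬ (PartI cs T C D ∧ PartII cs T C D)

/-- First part: for every Coxeter matrix the Iwahori-Hecke algebra, its bar involution and its
Kazhdan-Lusztig basis exist, so that the other parts are not vacuous.
Second part: the assertion fails for every finite Coxeter matrix whose graph contains a full subgraph
of type `A_9`.
Third part: this is the case for the affine types `A~_n` with `n ≥ 9` and `B~_n`, `C~_n`, `D~_n` with
`n ≥ 10`, that is for all irreducible affine Weyl groups except finitely many. -/
theorem result :
    (∀ (B : Type) (M : CoxeterMatrix B), ∃ (H : Type) (_ : Ring H) (_ : Algebra A H)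
      (T : Basis M.Group A H) (bar : H →+* H) (C : Basis M.Group A H),
        IsHecke M.toCoxeterSystem T ∧ IsBar M.toCoxeterSystem T bar ∧
          IsKLBasis M.toCoxeterSystem T bar C) ∧
    (∀ (B : Type) [Finite B] (M : CoxeterMatrix B), ContainsA9 M → Fails M) ∧
    (∀ n, 9 ≤ n → Fails (affineA n)) ∧
    (∀ n, 10 ≤ n → Fails (affineB n) ∧ Fails (affineC n) ∧ Fails (affineD n)) := by
  have key : ∀ (B : Type) [Finite B] (M : CoxeterMatrix B), ContainsA9 M → Fails M := by
    intro B _ M hM W _ cs H _ _ T bar C hT hb hC
    have hx := fails_of_containsA9 hM cs T bar C hT hb hC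
    refine ⟨hx, ?_⟩
    rintro D ⟨h1, h2⟩
    obtain ⟨x, x', w, w', sx, sx', lx, lx', e, hn, -⟩ := hx
    exact hn ((h2 w (h1 x sx w lx) x' sx' e).2 w' lx'.1)
  refine ⟨?_, key, fun n hn => key _ _ (affineA_containsA9 hn),
    fun n hn => ⟨key _ _ (affineB_containsA9 hn), key _ _ (affineC_containsA9 hn),
      key _ _ (affineD_containsA9 hn)⟩⟩
  intro B M
  have hT := TB_isHecke (cs := M.toCoxeterSystem)
  have hb := hT.barR_isBar
  obtain ⟨C, hC⟩ := exists_KLBasis hT hb
  exact ⟨HT M.toCoxeterSystem, inferInstance, inferInstance, TB M.toCoxeterSystem,
    hT.barR, C, hT, hb, hC⟩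

end Pool.Agent.Results.MP_8cdcda_al.AlmostAllTypes
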